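import Mathlib
import Pool.Agent.Helper28K1.ZD.MultUnif

/-!
# Distances in equivariant random closed sets, uniformly over all bases

`Ω` is an arbitrary probability space with two commuting measure-preserving maps `α`, `β`, and `F` is
a random closed subset of the circle with `p F(ω) ⊆ F(α ω)` and `q F(ω) ⊆ F(β ω)`; for example
`Ω` is the circle with a measure invariant under `×p` and `×q`, and `F(x)` is the closure of the
multiples `n x` with `n` in an arbitrary set of integers.

If `F(ω)` (or an iterated difference set of it) contains, with probability at least `ε`, two points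
at a distance of order `p ^ (-m)`, for ONE sufficiently large `m`, then `F(ω)` is `δ`-dense with
probability at least `c`: here `c` depends only on `ε` (and `p`, `q`), not on `δ`, and how large `m`
has to be depends only on `ε` and `δ`, not on the base and the random set.
-/

set_option autoImplicit false

open MeasureTheory Set Function

universe u

namespace Pool.Agent.Results.MP_e27144_an.DistanceScales

open Pool.Agent.Helper28K1

/-- `F` is a random closed subset of the circle over the probability space `(Ω, P)` (the values are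
closed, and the event that the set meets an open set is measurable), `α` and `β` are commuting maps
of `Ω` which preserve `P`, and almost surely `p F(ω) ⊆ F(α ω)` and `q F(ω) ⊆ F(β ω)`. -/
structure Equivariant (p q : ℕ) {Ω : Type*} [MeasurableSpace Ω] (P : Measure Ω) (α β : Ω → Ω)
    (F : Ω → Set UnitAddCircle) : Prop where
  preserves_left : MeasurePreserving α P P
  preserves_right : MeasurePreserving β P P
  commute : Function.Commute α β
  closed : ∀ ω, IsClosed (F ω)
  measurable : ∀ V : Set UnitAddCircle, IsOpen V → MeasurableSet {ω | (F ω ∩ V).Nonempty}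
  left : ∀ᵐ ω ∂P, ∀ x ∈ F ω, p • x ∈ F (α ω)
  right : ∀ᵐ ω ∂P, ∀ x ∈ F ω, q • x ∈ F (β ω)

/-- Iterated difference sets: `A`, `A - A`, `(A - A) - (A - A)`, ... -/
def iterDiff {G : Type*} [AddGroup G] : ℕ → Set G → Set G
  | 0, A => A
  | j + 1, A => {z | ∃ x ∈ iterDiff j A, ∃ y ∈ iterDiff j A, z = x - y}

/-- The scales at which `A` has points: the `m` such that `p ^ (-m-1) < ‖z‖ ≤ p ^ (-m)` for some
`z` in `A`. -/
def scales (p : ℕ) (A : Set UnitAddCircle) : Set ℕ :=
  {m | ∃ z ∈ A, (1 / (p : ℝ)) ^ (m + 1) < ‖z‖ ∧ ‖z‖ ≤ (1 / (p : ℝ)) ^ m}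

/-- Every point of the circle has a point of `A` at distance less than `δ`. -/
def IsNet (δ : ℝ) (A : Set UnitAddCircle) : Prop :=
  ∀ y : UnitAddCircle, ∃ x ∈ A, dist x y < δ

lemma iterDiff_eq {G : Type*} [AddGroup G] (j : ℕ) (A : Set G) :
    iterDiff j A = ZD.iterDiff j A := by
  induction j with
  | zero => rfl
  | succ j ih => unfold iterDiff ZD.iterDiff; rw [ih]

theorem result {p q : ℕ} (hp : 2 ≤ p) (hq : 2 ≤ q) (hpq : Irrational (Real.log p / Real.log q))
    (ε : ℝ) (j : ℕ) (hε : 0 < ε) :
    ∃ c : ℝ, 0 < c ∧ ∀ δ : ℝ, 0 < δ → ∃ m₀ : ℕ,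
      ∀ (Ω : Type u) [MeasurableSpace Ω] (P : Measure Ω) [IsProbabilityMeasure P] (α β : Ω → Ω)
        (F : Ω → Set UnitAddCircle), Equivariant p q P α β F → ∀ m : ℕ, m₀ ≤ m →
          ENNReal.ofReal ε ≤ P {ω | m ∈ scales p (iterDiff j (F ω))} →
          ENNReal.ofReal c ≤ P {ω | IsNet δ (F ω)} := by
  have h := Pool.Agent.H705R2.mulIndep_of_irrational hp hq hpq
  obtain ⟨c, hc0, hc⟩ := ZD.uniform.{u} hp hq h hε j
  refine ⟨c, hc0, fun δ hδ => ?_⟩
  obtain ⟨m₀, hm₀⟩ := hc δ hδ
  refine ⟨m₀, fun Ω _ P _ α β F hF m hm hmε => ?_⟩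
  simp only [iterDiff_eq] at hmε
  exact hm₀ Ω P α β hF.preserves_left hF.preserves_right hF.commute F hF.closed hF.measurable
    hF.left hF.right m hm hmε

end Pool.Agent.Results.MP_e27144_an.DistanceScales
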