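import Pool.Agent.Helper99.AE.Primes

/-!
Random sets of primes are rigid together with multiplication by `2`, and by any other integer.
-/

set_option autoImplicit false

open MeasureTheory Filter Topology
open scoped ENNReal

namespace Pool.Agent.Results.MP_e27144_an.RandomPrimes

/-- `T` has relative lower density at least `1 - ε` in `S`. -/
def LowerDense (S T : Set ℕ) (ε : ℝ) : Prop :=
  ∀ᶠ N : ℕ in atTop, (1 - ε) * (Nat.card {n : ℕ | n < N ∧ n ∈ S} : ℝ) ≤
    (Nat.card {n : ℕ | n < N ∧ n ∈ T} : ℝ)

/-- The multipliers `g n`, `n ∈ T`, are universal: for every `q ≥ 2` (for instance `q = 2`) and every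
atomless probability measure `μ` on the circle invariant under `x ↦ q x`,
1. the images under `x ↦ g(n) x` of every probability measure `ν ≪ μ` converge weakly to Lebesgue
   measure as `n → ∞` in `T`;
2. for every infinite subset `S` of `T` the orbit `{g(n) x : n ∈ S}` of `μ`-almost every `x` is dense;
3. for every infinite subset `S` of `T` and every probability measure `ν` invariant under all the
   maps `x ↦ g(n) x`, `n ∈ S`: if `ν` is not singular with respect to `μ` then `ν ≥ κ λ` for some
   `κ > 0`, and if `ν ≪ μ` (for instance `ν = μ`) then `ν = λ`. -/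
def Universal (g : ℕ → ℕ) (T : Set ℕ) : Prop :=
  ∀ q : ℕ, 2 ≤ q → ∀ μ : Measure UnitAddCircle, IsProbabilityMeasure μ →
    MeasurePreserving (fun x : UnitAddCircle => q • x) μ μ → (∀ x, μ {x} = 0) →
    (∀ ν : Measure UnitAddCircle, IsProbabilityMeasure ν → ν ≪ μ → ∀ f : C(UnitAddCircle, ℝ),
      Tendsto (fun n : ℕ => ∫ x, f (g n • x) ∂ν) (atTop ⊓ 𝓟 T) (𝓝 (∫ x, f x))) ∧
    ∀ S : Set ℕ, S ⊆ T → S.Infinite →
      (∀ᵐ x ∂μ, Dense {y : UnitAddCircle | ∃ n ∈ S, y = g n • x}) ∧
      ∀ ν : Measure UnitAddCircle, IsProbabilityMeasure ν →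
        (∀ n ∈ S, MeasurePreserving (fun x : UnitAddCircle => g n • x) ν ν) →
        (¬ ν ⟂ₘ μ → ∃ κ : ℝ≥0∞, 0 < κ ∧ κ • (volume : Measure UnitAddCircle) ≤ ν) ∧
        (ν ≪ μ → ν = volume)

/-- **Random sets of primes are rigid together with every integer.** Let `B` be the set of primes or
the set of all natural numbers, and let `S` be a random subset of `B` such that the events `{n ∈ S}`,
`n ∈ B`, are pairwise independent, with probabilities `p n` which are nonincreasing in `n` and have a
divergent sum over `B`. For instance each prime `ℓ` is put into `S` independently with probability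
`1 / ℓ`; then `S` has only about `log log N` elements below `N`. Then almost surely, for every `q ≥ 2`
(for instance `q = 2`): every atomless probability measure on the circle invariant under `x ↦ q x` and
under `x ↦ c x` for all `c ∈ S` is Lebesgue measure (no assumption on the entropy, no ergodicity).
Moreover, for every `ε > 0`, the elements of some subset `T` of `S` of relative lower density at
least `1 - ε` in `S` are universal multipliers. -/
theorem result (B : Set ℕ) (hB : B = {ℓ : ℕ | ℓ.Prime} ∨ B = Set.univ)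
    (Ω : Type) [MeasurableSpace Ω] (P : Measure Ω) [IsProbabilityMeasure P]
    (S : Ω → Set ℕ) (p : ℕ → ℝ) (hS : ∀ ω, S ω ⊆ B) (hm : ∀ n, MeasurableSet {ω | n ∈ S ω})
    (hind : ∀ m ∈ B, ∀ n ∈ B, m ≠ n →
      P ({ω | m ∈ S ω} ∩ {ω | n ∈ S ω}) = P {ω | m ∈ S ω} * P {ω | n ∈ S ω})
    (hp : Antitone p) (hpP : ∀ n ∈ B, P.real {ω | n ∈ S ω} = p n)
    (hdiv : ¬ Summable (fun n : B => p n)) :
    ∀ᵐ ω ∂P, (∀ q : ℕ, 2 ≤ q → ∀ μ : Measure UnitAddCircle, IsProbabilityMeasure μ →
        MeasurePreserving (fun x : UnitAddCircle => q • x) μ μ → (∀ x, μ {x} = 0) →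
        (∀ c ∈ S ω, MeasurePreserving (fun x : UnitAddCircle => c • x) μ μ) → μ = volume) ∧
      ∀ ε : ℝ, 0 < ε → ∃ T : Set ℕ, T ⊆ S ω ∧ LowerDense (S ω) T ε ∧
        Universal (fun n => n) T := by
  classical
  have hu : Helper99.AE.HasUniv B := by
    rcases hB with rfl | rfl
    · exact Helper99.AE.hasUniv_primes
    · exact Helper99.AE.hasUniv_univ
  exact Helper99.AE.random_sets_rigid hu hS hm hind hp hpP hdiv

end Pool.Agent.Results.MP_e27144_an.RandomPrimes
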