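import Pool.Agent.Helper26K1.WW.Main

/-!
Let `a_i (n)` be arbitrary bounded weights, `i = 0, 1, 2, ...`. There is a subset `E` of the circle of
packing dimension zero such that for all multiplicatively independent `p, q ≥ 2` and every point `y`
outside `E`, the orbit `n y`, `n = p ^ a * q ^ b`, is asymptotically uncorrelated with all the weights
in long windows `X ≤ n < H X` with `X` arbitrarily large. With the weight `1` this is
equidistribution; all the points which are generic along windows for a measure other than Lebesgue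
measure lie in `E`.
-/

set_option autoImplicit false

open MeasureTheory Filter Topology

namespace Pool.Agent.Results.MP_e27144_an.WeightedWindows

open Classical in
/-- The window of the numbers `n = p ^ a * q ^ b` with `X ≤ n < Y`. -/
noncomputable def window (p q : ℕ) (X Y : ℝ) : Finset ℕ :=
  (Finset.range ⌈Y⌉₊).filter fun n => (∃ a b : ℕ, n = p ^ a * q ^ b) ∧ X ≤ n

/-- The point `y` is generic for the measure `μ` along windows: for every continuous function the
averages over the windows `X ≤ n < H X` are close to the integral, for large `H` and for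
`X ≥ X₀(H)`. -/
def WindowGeneric (p q : ℕ) (μ : Measure UnitAddCircle) (y : UnitAddCircle) : Prop :=
  ∀ f : UnitAddCircle → ℝ, Continuous f → ∀ ε : ℝ, 0 < ε → ∃ H₀ : ℕ, ∀ H : ℕ, H₀ ≤ H →
    ∃ X₀ : ℝ, ∀ X : ℝ, X₀ ≤ X →
      |∑ n ∈ window p q X (H * X), f (n • y) - (∫ y, f y ∂μ) * (window p q X (H * X)).card| ≤
        ε * (window p q X (H * X)).card

/-- The covering numbers of `A` at scale `ρ` are at most a constant times `ρ ^ (-s)`, so the upper
box dimension of `A` is at most `s`. -/
def Covered (A : Set UnitAddCircle) (s : ℝ) : Prop :=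
  ∃ C : ℝ, 0 < C ∧ ∀ ρ : ℝ, 0 < ρ → ρ ≤ 1 → ∃ F : Finset UnitAddCircle,
    (F.card : ℝ) ≤ C * ρ ^ (-s) ∧ ∀ x ∈ A, ∃ z ∈ F, ‖x - z‖ ≤ ρ

/-- **Arbitrary weights on the orbits of `×p, ×q`.** Let `a 0, a 1, ...` be arbitrary complex functions
on `ℕ`, bounded by one, the first of them constant equal to one. There is a set `E` of Hausdorff
dimension zero, and even of packing dimension zero (for every `s > 0` it is covered by countably many
sets of upper box dimension at most `s`), such that for all multiplicatively independent `p, q ≥ 2`: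
(a) for every point `y` outside `E`, every `ε > 0` and `M`, and for every large ratio `H` there are
windows `X ≤ n < H X` of numbers `n = p ^ a * q ^ b` with `X` arbitrarily large in which the
correlation of each of the weights `a 0, ..., a M` with each of the characters `e (k n y)`,
`0 < |k| ≤ M`, is at most `ε`;
(b) every point which is window-generic for a Borel probability measure other than Lebesgue measure
lies in `E`. -/
theorem result (a : ℕ → ℕ → ℂ) (ha : ∀ i n, ‖a i n‖ ≤ 1) (ha0 : ∀ n, a 0 n = 1) :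
    ∃ E : Set UnitAddCircle, dimH E = 0 ∧
    (∀ s : ℝ, 0 < s → ∃ A : ℕ → Set UnitAddCircle, E ⊆ ⋃ n, A n ∧ ∀ n, Covered (A n) s) ∧
    ∀ p q : ℕ, 2 ≤ p → 2 ≤ q → Irrational (Real.log p / Real.log q) →
      (∀ y : UnitAddCircle, y ∉ E → ∀ (ε : ℝ) (M : ℕ), 0 < ε → ∃ H₀ : ℕ, ∀ H : ℕ, H₀ ≤ H →
        ∀ X₀ : ℝ, ∃ X : ℝ, X₀ ≤ X ∧ (window p q X (H * X)).Nonempty ∧
          ∀ i : ℕ, i ≤ M → ∀ k : ℤ, k ≠ 0 → |k| ≤ M →
            ‖∑ n ∈ window p q X (H * X), a i n * (fourier k (n • y) : ℂ)‖ ≤
              ε * (window p q X (H * X)).card) ∧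
      (∀ μ : Measure UnitAddCircle, IsProbabilityMeasure μ → μ ≠ volume →
        ∀ y : UnitAddCircle, WindowGeneric p q μ y → y ∈ E) :=
  ⟨Pool.Agent.Helper26K1.WW.EW a,
    Pool.Agent.Helper26K1.WW.small_dim fun _ hs => Pool.Agent.Helper26K1.WW.EW_small ha hs,
    fun _ hs => Pool.Agent.Helper26K1.WW.EW_small ha hs, fun _ _ hp hq hpq =>
    ⟨fun _ hy _ M hε => Pool.Agent.Helper26K1.WW.weights hp hq hpq hy hε M,
      fun _ _ hμ _ hy => Pool.Agent.Helper26K1.WW.generic_mem ⟨0, ha0⟩ hp hq hpq hμ hy⟩⟩

end Pool.Agent.Results.MP_e27144_an.WeightedWindows
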