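import Pool.Agent.Helper26K1.WS.Lower

/-!
Let `p, q ≥ 2` be coprime. For a point `x` of the circle consider the windows
`{n = p ^ a * q ^ b : 2 ^ j ≤ n < H 2 ^ j}`, `j = 0, 1, 2, ...`, in which the orbit `n x` is
equidistributed up to `ε`. For every `0 ≤ s ≤ 1` the set of the points for which these windows have
lower density less than `s` has Hausdorff dimension exactly `s`.
-/

set_option autoImplicit false

open Filter Topology

namespace Pool.Agent.Results.MP_e27144_an.WindowSpectrum

open Classical in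
/-- The window of the numbers `n = p ^ a * q ^ b` with `X ≤ n < Y`. -/
noncomputable def window (p q : ℕ) (X Y : ℝ) : Finset ℕ :=
  (Finset.range ⌈Y⌉₊).filter fun n => (∃ a b : ℕ, n = p ^ a * q ^ b) ∧ X ≤ n

open Classical in
/-- The number of the `n` in the window such that `n x` lies in the closed arc of centre `c` and
radius `r`. -/
noncomputable def visits (p q : ℕ) (X Y : ℝ) (x c : UnitAddCircle) (r : ℝ) : ℕ :=
  ((window p q X Y).filter fun n => ‖n • x - c‖ ≤ r).card

/-- The orbit of `x` is `ε`-equidistributed in the window `2 ^ j ≤ n < H 2 ^ j`: every arc is visited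
with frequency equal to its length up to `ε`. -/
def Equidistributed (p q : ℕ) (ε : ℝ) (H : ℕ) (x : UnitAddCircle) (j : ℕ) : Prop :=
  ∀ c : UnitAddCircle, ∀ r : ℝ, 0 ≤ r → r ≤ 1 / 2 →
    |(visits p q (2 ^ j) (H * 2 ^ j) x c r : ℝ) - 2 * r * (window p q (2 ^ j) (H * 2 ^ j)).card| ≤
      ε * (window p q (2 ^ j) (H * 2 ^ j)).card

/-- The lower density of the `j` such that the orbit of `x` is `ε`-equidistributed in the window
`2 ^ j ≤ n < H 2 ^ j`. -/
noncomputable def lowerDensity (p q : ℕ) (ε : ℝ) (H : ℕ) (x : UnitAddCircle) : ℝ :=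
  liminf (fun J : ℕ => ({j | j < J ∧ Equidistributed p q ε H x j}.ncard : ℝ) / J) atTop

/-- **The dimension spectrum of equidistribution in windows.** Let `p, q ≥ 2` be coprime and
`0 ≤ s ≤ 1`. The set of the points `x` such that, for some `ε > 0`, the windows
`2 ^ j ≤ n < H 2 ^ j` in which the orbit `n x`, `n = p ^ a * q ^ b`, is `ε`-equidistributed have lower
density less than `s` for infinitely many ratios `H`, has Hausdorff dimension exactly `s`; so has
the smaller set for which this holds for all large `H`. -/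
theorem result (p q : ℕ) (hp : 2 ≤ p) (hq : 2 ≤ q) (hpq : Nat.Coprime p q) (s : ℝ) (hs0 : 0 ≤ s)
    (hs1 : s ≤ 1) :
    dimH {x : UnitAddCircle | ∃ ε : ℝ, 0 < ε ∧ ∃ᶠ H : ℕ in atTop, lowerDensity p q ε H x < s} =
      ENNReal.ofReal s ∧
    dimH {x : UnitAddCircle | ∃ ε : ℝ, 0 < ε ∧ ∀ᶠ H : ℕ in atTop, lowerDensity p q ε H x < s} =
      ENNReal.ofReal s :=
  Pool.Agent.Helper26K1.WS.spectrum hp hq hpq hs0 hs1

end Pool.Agent.Results.MP_e27144_an.WindowSpectrum
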